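import Pool.Agent.Helper57.ZF.Goals

/-!
# LOC: localisation of intersection points (project ZF)
-/

set_option autoImplicit false

namespace Pool.Agent.Helper40.ZF

open Pool.Agent.Helper57.ZF

theorem lip {E : Type} [NormedAddCommGroup E] [NormedSpace ℝ E] (A : E →L[ℝ] E) (b x y x' y' : E)
    (hA : ‖A‖ ≤ 1 / 5) (h : y = A x + b) (h' : y' = A x' + b) :
    dist y y' ≤ (1 / 5) * dist x x' := by
  rw [dist_eq_norm, dist_eq_norm, h, h', add_sub_add_right_eq_sub, ← map_sub]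
  exact (A.le_opNorm _).trans (mul_le_mul_of_nonneg_right hA (norm_nonneg _))

theorem LOC : Pool.Agent.Helper57.ZF.G_LOC := by
  intro E _ _ f g w p q z ρ hf hg hp hq hpf hzf hqg hzg
  have h1 : dist z.2 p.2 ≤ (1 / 5) * dist z.1 p.1 := lip f.1 f.2 _ _ _ _ hf hzf hpf
  have h2 : dist z.1 q.1 ≤ (1 / 5) * dist z.2 q.2 := lip g.1 g.2 _ _ _ _ hg hzg hqg
  rw [Prod.dist_eq] at hp hq ⊢
  have p1 : dist p.1 w.1 ≤ ρ := (le_max_left _ _).trans hp
  have p2 : dist p.2 w.2 ≤ ρ := (le_max_right _ _).trans hp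
  have q1 : dist q.1 w.1 ≤ ρ := (le_max_left _ _).trans hq
  have q2 : dist q.2 w.2 ≤ ρ := (le_max_right _ _).trans hq
  have t1 : dist z.2 w.2 ≤ dist z.2 p.2 + dist p.2 w.2 := dist_triangle _ _ _
  have t2 : dist z.1 w.1 ≤ dist z.1 q.1 + dist q.1 w.1 := dist_triangle _ _ _
  have t3 : dist z.1 p.1 ≤ dist z.1 w.1 + dist p.1 w.1 := dist_triangle_right _ _ _
  have t4 : dist z.2 q.2 ≤ dist z.2 w.2 + dist q.2 w.2 := dist_triangle_right _ _ _
  have r0 : 0 ≤ ρ := dist_nonneg.trans p1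
  refine max_le ?_ ?_ <;> linarith

end Pool.Agent.Helper40.ZF
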